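import Pool.Agent.Q286.IX.Stm
import Pool.Agent.Q166.EW.CirU

/-! # Project IX of helper286, job IX-CIR: circles with a lower bound, any centre and radius

Adapted from `Pool.Agent.Q166.EW.CirU` (helper166). -/

set_option autoImplicit false
set_option linter.unusedSectionVars false

open Complex Filter Topology Finset

namespace Pool.Agent.Q198.IX

open Pool.Agent.Q286.EW Pool.Agent.Q286.IX Pool.Agent.Q166.EW
open Pool.Agent.Y23.G (Lg one_le_Lg Xd X_ne)

/-- **CIRS** (job IX-CIR): circles with a lower bound -/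
theorem cirS (hrot : S_RotU) : S_CirS := by
  intro L
  obtain ⟨σ, hσ, c, hc, hctr⟩ := ctr0 (L := L)
  set R : ℝ := σ + 2 with hR
  have hR4 : 4 ≤ R := by rw [hR]; linarith
  have hR0 : 0 < R := by linarith
  obtain ⟨E, hE, hup1⟩ := up_ball hrot (L := L) (T := 5 * R) (by linarith)
  obtain ⟨C', hC', hcnt⟩ := disc_cnt (L := L) (r := 2 * R) (by positivity)
  have hl3R : 0 ≤ Real.log (3 * R) := Real.log_nonneg (by linarith)
  have hl16 : 0 ≤ Real.log 16 := Real.log_nonneg (by norm_num)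
  set E1 : ℝ := E + |Real.log c| with hE1
  have hE10 : 0 ≤ E1 := by positivity
  set D : ℝ := 2 * Real.log (3 * R) + 2 * Real.log 16 + 2 with hD
  have hD0 : 2 ≤ D := by rw [hD]; linarith
  have hD00 : 0 ≤ D := by linarith
  have hpi := Real.pi_pos
  refine ⟨1 + |Real.log c| + 2 * E1 + C' * D, by
    have : 0 ≤ C' * D := by positivity
    have := abs_nonneg (Real.log c)
    linarith, ?_⟩
  intro w0 δ hx1 hδ0 hδ1
  set x : ℝ := w0.re with hx
  obtain ⟨hxa, hxb⟩ := abs_le.mp hx1
  set γ : ℝ := w0.im with hγ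
  set Y := |γ| with hY
  have hY0 : 0 ≤ Y := abs_nonneg _
  have hL1 := one_le_Lg γ
  set Λ : ℝ := Real.log (1 / δ) with hΛ
  have hΛ0 : 0 ≤ Λ := Real.log_nonneg (by rw [le_div_iff₀ hδ0]; linarith)
  set z0 : ℂ := σ + γ * I with hz0
  have hz0re : z0.re = σ := by rw [hz0]; simp
  have hz0im : z0.im = γ := by rw [hz0]; simp
  have hlow0 : c * Real.exp (-(L.m * Real.pi / 4 * Y)) ≤ ‖L.X (1 / 2 + z0)‖ := by
    have h1 := hctr γ
    have e : (1 / 2 + σ + γ * I : ℂ) = 1 / 2 + z0 := by rw [hz0]; ring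
    rwa [e] at h1
  have hne : L.X (1 / 2 + z0) ≠ 0 := by
    rw [← norm_pos_iff]
    exact lt_of_lt_of_le (by positivity) hlow0
  have hlow1 : Real.exp (-|Real.log c| - L.m * Real.pi / 4 * Y) ≤ ‖L.X (1 / 2 + z0)‖ := by
    refine le_trans ?_ hlow0
    have e : c * Real.exp (-(L.m * Real.pi / 4 * Y)) = Real.exp (Real.log c - L.m * Real.pi / 4 * Y) := by
      rw [sub_eq_add_neg, Real.exp_add, Real.exp_log hc]
    rw [e]
    apply Real.exp_le_exp.mpr
    have := neg_abs_le (Real.log c)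
    linarith
  set M : ℝ := Real.exp (E1 * Lg γ) with hM
  have hM1 : 1 ≤ M := Real.one_le_exp (by positivity)
  have hup : ∀ w, ‖w - z0‖ ≤ 4 * R → ‖L.X (1 / 2 + w)‖ ≤ M * ‖L.X (1 / 2 + z0)‖ := by
    intro w hw
    have hre : |w.re| ≤ 5 * R := by
      have h2 := (Complex.abs_re_le_norm (w - z0)).trans hw
      rw [Complex.sub_re, hz0re] at h2
      have h3 := abs_le.mp h2
      rw [abs_le]
      constructor <;> linarith
    have him : |γ| - 5 * R ≤ |w.im| := by
      have h2 := (Complex.abs_im_le_norm (w - z0)).trans hw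
      rw [Complex.sub_im, hz0im] at h2
      have h3 : |γ| ≤ |w.im| + |w.im - γ| := by
        have := abs_sub_abs_le_abs_sub γ w.im
        rw [abs_sub_comm] at this
        linarith
      linarith
    refine (hup1 γ w hre him).trans ?_
    refine le_trans ?_ (mul_le_mul_of_nonneg_left hlow1 (Real.exp_pos _).le)
    rw [hM, ← Real.exp_add]
    apply Real.exp_le_exp.mpr
    have h4 : |Real.log c| * 1 ≤ |Real.log c| * Lg γ := mul_le_mul_of_nonneg_left hL1 (abs_nonneg _)
    rw [hE1]
    linarith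
  set n : ℕ := ⌊C' * Lg z0.im⌋₊ with hn
  obtain ⟨l, hln, hl2, hlmem, hlow⟩ := minP (f := fun w => L.X (1 / 2 + w)) (z0 := z0) (R := R) (M := M)
    (n := n) (by
      have := Xd (L := L)
      fun_prop) hR0 hM1 hne hup (by
      intro S hS
      rw [hn]
      exact Nat.le_floor (hcnt z0 S hS))
  have hkn : (l.length : ℝ) ≤ C' * Lg γ := by
    have h1 : (l.length : ℝ) ≤ n := by exact_mod_cast hln
    refine h1.trans ?_
    rw [hn, hz0im]
    exact Nat.floor_le (by positivity)
  set p : ℂ := -(starRingEnd ℂ) w0 with hp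
  obtain ⟨r, hr1, hr2, hr3⟩ := real_prod_list l (fun b => ‖b - w0‖) (fun b => ‖b - p‖) (δ / 4)
    (by positivity)
  have hr2' : r ≤ δ / 2 := by linarith
  have hr0 : 0 < r := by linarith
  -- distances of the centres
  have hd1 : ‖w0 - z0‖ ≤ σ + 1 := by
    have e : w0 - z0 = ((x - σ : ℝ) : ℂ) := by
      apply Complex.ext
      · rw [Complex.sub_re, hz0re, Complex.ofReal_re]
      · rw [Complex.sub_im, hz0im, Complex.ofReal_im]
        simp [hγ]
    rw [e, Complex.norm_real, Real.norm_eq_abs, abs_le]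
    constructor <;> linarith
  have hd2 : ‖p - z0‖ ≤ σ + 1 := by
    have e : p - z0 = ((-x - σ : ℝ) : ℂ) := by
      apply Complex.ext
      · rw [Complex.sub_re, hz0re, Complex.ofReal_re, hp]
        simp [hx]
      · rw [Complex.sub_im, hz0im, Complex.ofReal_im, hp]
        simp [hγ]
    rw [e, Complex.norm_real, Real.norm_eq_abs, abs_le]
    constructor <;> linarith
  -- bounds of the factors
  have hfac : ∀ u : ℂ, ‖u - z0‖ ≤ σ + 1 → ∀ b ∈ l, 0 ≤ |r - ‖b - u‖| ∧ |r - ‖b - u‖| ≤ 3 * R := by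
    intro u hu b hb
    refine ⟨abs_nonneg _, ?_⟩
    have h1 : ‖b - u‖ ≤ 3 * R := by
      have h2 : ‖b - u‖ ≤ ‖b - z0‖ + ‖u - z0‖ := by
        have e : b - u = (b - z0) - (u - z0) := by ring
        rw [e]
        exact norm_sub_le _ _
      have h3 := hl2 b hb
      linarith
    have h2 := norm_nonneg (b - u)
    rw [abs_le]
    constructor <;> linarith
  set k := l.length with hk
  set P1 : ℝ := (l.map fun b => |r - ‖b - w0‖|).prod with hP1
  set P2 : ℝ := (l.map fun b => |r - ‖b - p‖|).prod with hP2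
  have hP10 : 0 ≤ P1 := lprod_nonneg l _ fun b hb => (hfac w0 hd1 b hb).1
  have hP20 : 0 ≤ P2 := lprod_nonneg l _ fun b hb => (hfac p hd2 b hb).1
  have hP11 : P1 ≤ (3 * R) ^ k := lprod_le l _ (hfac w0 hd1)
  have hP21 : P2 ≤ (3 * R) ^ k := lprod_le l _ (hfac p hd2)
  have h3R : 0 < 3 * R := by positivity
  have h3Rk : 0 < (3 * R) ^ k := by positivity
  -- the small number
  set κ : ℝ := (δ / 4 / 4) ^ (2 * k) * ((3 * R) ^ k)⁻¹ * ((3 * R) ^ k)⁻¹ with hκ
  have hκ0 : 0 ≤ κ := by positivity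
  have hκ1 : κ ≤ P1 * ((3 * R) ^ k)⁻¹ := by
    rw [hκ]
    refine mul_le_mul_of_nonneg_right ?_ (by positivity)
    rw [← div_eq_mul_inv, div_le_iff₀ h3Rk]
    exact hr3.trans (mul_le_mul_of_nonneg_left hP21 hP10)
  have hκ2 : κ ≤ P2 * ((3 * R) ^ k)⁻¹ := by
    rw [hκ]
    refine mul_le_mul_of_nonneg_right ?_ (by positivity)
    rw [← div_eq_mul_inv, div_le_iff₀ h3Rk]
    refine hr3.trans ?_
    rw [mul_comm]
    exact mul_le_mul_of_nonneg_left hP11 hP20
  have hκe : Real.exp (-(C' * D * Lg γ * (1 + Λ))) ≤ κ := by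
    have e1 : δ / 4 / 4 = Real.exp (-(Real.log 16 + Λ)) := by
      rw [hΛ, one_div, Real.log_inv, neg_add, neg_neg, Real.exp_add, Real.exp_neg, Real.exp_log (by norm_num),
        Real.exp_log hδ0]
      ring
    have e2 : (3 * R) ^ k = Real.exp (k * Real.log (3 * R)) := by
      rw [Real.exp_nat_mul, Real.exp_log h3R]
    have e3 : κ = Real.exp (-(k * (2 * Real.log (3 * R) + 2 * Real.log 16 + 2 * Λ))) := by
      rw [hκ, e1, ← Real.exp_nat_mul, e2, ← Real.exp_neg, ← Real.exp_add, ← Real.exp_add]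
      congr 1
      push_cast
      ring
    rw [e3]
    apply Real.exp_le_exp.mpr
    apply neg_le_neg
    have h1 : 2 * Real.log (3 * R) + 2 * Real.log 16 + 2 * Λ ≤ D * (1 + Λ) := by
      have h2 : 2 * Λ ≤ D * Λ := mul_le_mul_of_nonneg_right hD0 hΛ0
      have h3 : 2 * Real.log (3 * R) + 2 * Real.log 16 ≤ D := by rw [hD]; linarith
      have e4 : D * (1 + Λ) = D + D * Λ := by ring
      rw [e4]
      linarith
    calc (k : ℝ) * (2 * Real.log (3 * R) + 2 * Real.log 16 + 2 * Λ) ≤ (C' * Lg γ) * (D * (1 + Λ)) :=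
          mul_le_mul hkn h1 (by positivity) (by positivity)
      _ = C' * D * Lg γ * (1 + Λ) := by ring
  have hLΛ : 1 ≤ Lg γ * (1 + Λ) := by nlinarith
  have hCe : ∀ B : ℝ, 0 ≤ B → B ≤ B * (Lg γ * (1 + Λ)) := fun B hB => le_mul_of_one_le_right hB hLΛ
  have hE2 : 0 ≤ 1 + |Real.log c| + 2 * E1 := by positivity
  refine ⟨r, hr1, hr2', ?_, ?_⟩
  · -- the zeros
    intro w hw
    rw [abs_sub_comm]
    rcases le_or_gt ‖w - w0‖ 1 with h1 | h1
    · have hwl : w ∈ l := by
        apply hlmem w _ hw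
        have e : w - z0 = (w - w0) + (w0 - z0) := by ring
        rw [e]
        refine (norm_add_le _ _).trans ?_
        linarith
      have h2 := lprod_le_factor l (fun b => |r - ‖b - w0‖|) (T := 3 * R) (by linarith) (hfac w0 hd1) hwl
      have h3 : κ ≤ |r - ‖w - w0‖| := by
        refine hκ1.trans ?_
        rw [← div_eq_mul_inv, div_le_iff₀ h3Rk]
        exact h2
      refine le_trans ?_ (hκe.trans h3)
      apply Real.exp_le_exp.mpr
      apply neg_le_neg
      have h4 : C' * D ≤ 1 + |Real.log c| + 2 * E1 + C' * D := by linarith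
      calc C' * D * Lg γ * (1 + Λ) = (C' * D) * (Lg γ * (1 + Λ)) := by ring
        _ ≤ (1 + |Real.log c| + 2 * E1 + C' * D) * (Lg γ * (1 + Λ)) :=
            mul_le_mul_of_nonneg_right h4 (by linarith)
        _ = (1 + |Real.log c| + 2 * E1 + C' * D) * Lg γ * (1 + Λ) := by ring
    · have h2 : Real.exp (-((1 + |Real.log c| + 2 * E1 + C' * D) * Lg γ * (1 + Λ))) ≤ Real.exp (-1) := by
        apply Real.exp_le_exp.mpr
        apply neg_le_neg
        have h3 : 1 ≤ 1 + |Real.log c| + 2 * E1 + C' * D := by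
          have : 0 ≤ C' * D := by positivity
          have := abs_nonneg (Real.log c)
          linarith
        rw [mul_assoc]
        nlinarith
      have h3 : Real.exp (-1) ≤ 1 / 2 := by
        rw [Real.exp_neg, one_div]
        apply inv_anti₀ (by norm_num)
        have := Real.add_one_le_exp (1 : ℝ)
        linarith
      have h4 : 1 / 2 ≤ |r - ‖w - w0‖| := by
        rw [abs_sub_comm]
        refine le_trans ?_ (le_abs_self _)
        linarith
      exact h2.trans (h3.trans h4)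
  · -- the circles
    have key : ∀ u : ℂ, ‖u - z0‖ ≤ σ + 1 → κ ≤ (l.map fun b => |r - ‖b - u‖|).prod * ((3 * R) ^ k)⁻¹ →
        ∀ z : ℂ, ‖z - u‖ = r →
        Real.exp (-(L.m * Real.pi / 4 * Y) - (1 + |Real.log c| + 2 * E1 + C' * D) * Lg γ * (1 + Λ)) ≤
          ‖L.X (1 / 2 + z)‖ := by
      intro u hu hκu z hz
      have hzz : ‖z - z0‖ ≤ R := by
        have e : z - z0 = (z - u) + (u - z0) := by ring
        rw [e]
        refine (norm_add_le _ _).trans ?_
        rw [hz]
        linarith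
      have h1 := hlow z hzz
      refine le_trans ?_ h1
      have h2 : (l.map fun b => |r - ‖b - u‖|).prod ≤ ‖(l.map (fun s => z - s)).prod‖ := by
        refine lprod_le_norm l _ z fun b hb => ⟨abs_nonneg _, ?_⟩
        rw [← hz]
        have h3 := abs_norm_sub_norm_le (z - u) (b - u)
        have e : z - u - (b - u) = z - b := by ring
        rwa [e] at h3
      have h3 : κ ≤ ((2 * R) ^ k)⁻¹ * ‖(l.map (fun s => z - s)).prod‖ := by
        refine hκu.trans ?_
        rw [mul_comm]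
        refine mul_le_mul ?_ h2 (lprod_nonneg l _ fun b hb => abs_nonneg _) (by positivity)
        apply inv_anti₀ (by positivity)
        exact pow_le_pow_left₀ (by positivity) (by linarith) _
      have h4 : Real.exp (-|Real.log c| - L.m * Real.pi / 4 * Y) * (M ^ 2)⁻¹ *
          Real.exp (-(C' * D * Lg γ * (1 + Λ))) ≤
          ‖L.X (1 / 2 + z0)‖ * (M ^ 2)⁻¹ * (((2 * R) ^ k)⁻¹ * ‖(l.map (fun s => z - s)).prod‖) := by
        refine mul_le_mul (mul_le_mul_of_nonneg_right hlow1 (by positivity)) (hκe.trans h3)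
          (Real.exp_pos _).le (by positivity)
      refine le_trans ?_ h4
      have e2 : (M ^ 2)⁻¹ = Real.exp (-(2 * (E1 * Lg γ))) := by
        rw [hM, ← Real.exp_nat_mul, ← Real.exp_neg]
        congr 1
      rw [e2, ← Real.exp_add, ← Real.exp_add]
      apply Real.exp_le_exp.mpr
      have h5 := hCe (|Real.log c|) (abs_nonneg _)
      have h6 : 2 * (E1 * Lg γ) ≤ 2 * E1 * (Lg γ * (1 + Λ)) := by
        have h7 : Lg γ ≤ Lg γ * (1 + Λ) := le_mul_of_one_le_right (by linarith) (by linarith)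
        have h8 : 2 * E1 * Lg γ ≤ 2 * E1 * (Lg γ * (1 + Λ)) := mul_le_mul_of_nonneg_left h7 (by positivity)
        linarith
      have e3 : (1 + |Real.log c| + 2 * E1 + C' * D) * Lg γ * (1 + Λ) =
          Lg γ * (1 + Λ) + |Real.log c| * (Lg γ * (1 + Λ)) + 2 * E1 * (Lg γ * (1 + Λ)) +
            C' * D * Lg γ * (1 + Λ) := by ring
      rw [e3]
      linarith
    intro z hz
    rcases hz with hz | hz
    · exact key w0 hd1 hκ1 z hz
    · exact key p hd2 hκ2 z hz

end Pool.Agent.Q198.IX
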